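import Mathlib
import Pool.Agent.H80.ShadowDefs
import Pool.Agent.H80.Shadow1
import Pool.Agent.H80.Shadow2

open Pool.Agent.H80.Shadow

theorem Pool.Agent.Results.MP_320b68_gt.CoiledArc.result :
    ∃ M : Set (Euc 3), IsCompact M ∧ IsConnected M ∧ Geodesic M ∧
      CondM1 M ∧ CondM2 M ∧ CondM3 M ∧
      ∀ β₀ : ℝ, 0 < β₀ → ∃ β : ℝ, 0 < β ∧ β < β₀ ∧ ∀ η : ℝ, 0 < η →
        ∃ S : Finset (Euc 3), Metric.hausdorffEDist (S : Set (Euc 3)) M < ENNReal.ofReal η ∧
          IsEmpty (ContinuousMap.HomotopyEquiv (shadow β S) M) :=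
  ⟨γ '' Set.Icc 0 1, isCompact_Icc.image graph.lip.continuous,
    (isConnected_Icc zero_le_one).image _ graph.lip.continuous.continuousOn,
    graph.geodesic, graph.condM1, graph.condM2, graph.condM3, main⟩
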